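import Pool.Agent.T2H42.BK.Hank

set_option autoImplicit false

/-! # The motivic monodromy conjecture for products of powers of forms over products of Hankel determinantal ideals

Let `x_0, …, x_{N - 1}` be the coordinates of the affine space. The Hankel matrices of rank at most `d`
form a closed subset `Σ_d`, `2 d < N`, of dimension `2 d`: the affine cone over the variety of
`d`-secant `(d - 1)`-planes of the rational normal curve of degree `N - 1`. Its ideal `I_{d + 1}` is
generated by the maximal minors of the `(d + 1) × (N - d)` Hankel matrix `(x_{i + j})`, and also by the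
`(d + 1)`-minors of the other Hankel matrices in these variables which have at least `d + 1` rows and
columns (Gruson and Peskine). Let `p t`, `t ∈ T`, be numbers with `2 p t < N`, and let `M_{t,J}`
(`hankel N (p t) J`) be the maximal minors of the `p t × (N + 1 - p t)` Hankel matrix, which generate the
ideal `I_{p t}`. The `t ∈ T` are distributed over blocks `b ∈ B`: `t` belongs to the block `β t`. Let

  `F_b = ∑_J y_{b,J} ∏_{β t = b} M_{t, J t}(x)`,

where `J` runs over the choices of one minor `M_{t, J t}` for each `t` in the block `b`, and the
`y_{b,J}` are further variables (`blkF`, `blockForm`). So `F_b` is the general form over the product of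
the ideals `I_{p t}`, `β t = b`. Let `f = ∏ b, F_b ^ a b` (`powProd`).

The resolution. Let `P` be the maximum of the `p t` with `a (β t) > 0`, and let `Y` be obtained from the
affine space by blowing up `Σ_0 = {0}` and the strict transforms of `Σ_1, …, Σ_{P - 1}`, in this order. It is smooth,
and the exceptional divisors `E_0, …, E_{P - 1}` cross normally (Bertram; Thaddeus; Vermeire). The
multiplicity of the Jacobian determinant along `E_d` is `ν_d - 1` with `ν_d = N - 2 d`, and `I_p`
becomes the ideal of the divisor `∑_{d < p} (p - d) E_d`. Hence locally `F_b` is a monomial in the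
equations of the `E_d` times `y_{b,J} + ∑_{i ≠ J} g_i y_{b,i}` for some `J`, and `Y` times the space of
the `y` is an embedded resolution of `f`, with the components `E_d`, of multiplicity
`N_d = ∑ t, a (β t) * max (p t - d, 0)`, and, for `a b > 0`, the strict transform of `F_b = 0`, with
multiplicity `a b` and `ν = 1` (`mulHB`, `nuH`; in these definitions all `d < (N + 1) / 2` are listed,
the `d ≥ P` have the multiplicity `0` and do not matter).

The motivic zeta function of the problem, computed on this resolution (Denef and Loeser), is of the form
`dlZ = ∑_J c_J ∏_{i ∈ J} 𝕃 ^ (-ν_i) T ^ (N_i) / (1 - 𝕃 ^ (-ν_i) T ^ (N_i))`, where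
`c_J = (𝕃 - 1) ^ (|J| - 1) [Ẽ_J°]` for `J ≠ ∅` and `c_∅ = [f = 1]`. In the theorem the `c_J` are arbitrary
elements of a commutative ring `R` with a unit `u`, for instance `R = K₀(Var_ℂ)[𝕃⁻¹]`, `u = 𝕃`.

The proof. A functional equation of `f` gives one of the product of powers of the ideals of the blocks,
which is a functional equation of the product of powers of the `I_{p t}`, with the same `b`
(`ideal_of_blk`). The exceptional divisors `E_d` are Rees divisors of this product, and a residue
computation at a general point of `E_d` gives the roots; the roots `-(1 + l) / a b` come from the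
strict transforms. -/

namespace Pool.Agent.Results.MP_432c1b_ag.HankelForms

open Pool.Agent.H628R4.TP Pool.Agent.TH192.DT Pool.Agent.R779.HK Pool.Agent.T2H42.BK

/-- **The motivic monodromy conjecture holds for `f = ∏ b, F_b ^ a b`**, `F_b` the general form over the
product of the ideals of the `p t`-minors, `β t = b`, of the Hankel matrices in `N` variables,
`2 p t < N`. (1) Every series of the form of the formula of Denef and Loeser for the motivic zeta
function of `f` lies in the ring generated by `R`, `T` and the `1 / (1 - u ^ q₁ T ^ q₂)`, where
`(q₁, q₂)` are the pairs `(-(N - 2 d), N_d)`, `N_d > 0`, and `(-1, a b)`, `a b > 0`. (2) For these pairs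
`q₁ < 0 < q₂`, and `q₁ / q₂` is a root of every `b` with `b(s) f ^ s = P(s) f ^ (s + 1)`, where `P(s)` is in
the Weyl algebra, or a differential operator with formal power series at the origin as coefficients;
for instance of the Bernstein-Sato polynomial of `f`, or of its germ at the origin. (3) The numbers
`-(N - 2 d + l) / N_d`, `0 ≤ l < N_d`, and `-(1 + l) / a b`, `0 ≤ l < a b`, are also roots. -/
theorem result {T B : Type} [Fintype T] [DecidableEq T] [Fintype B] [DecidableEq B] (N : ℕ)
    (p : T → ℕ) (hp : ∀ t, 2 * p t < N) (β : T → B) (a : B → ℕ) :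
    (∀ (R : Type) [CommRing R] (u : Rˣ) (χ : Finset {x // 0 < mulHB N p β a x} → R),
      dlZ u (nuH N B) (mulHB N p β a) χ ∈ ratU u (pairs (nuH N B) (mulHB N p β a))) ∧
    (∀ q ∈ pairs (nuH N B) (mulHB N p β a), q.1 < 0 ∧ 0 < q.2 ∧ ∀ b : Polynomial ℂ,
      (IsBFunction (powProd a (blkF (fun t => hankel N (p t)) β)) b ∨
        IsLocalBFunction (powProd a (blkF (fun t => hankel N (p t)) β)) b) →
      b.eval ((q.1 : ℂ) / q.2) = 0) ∧
    ∀ b : Polynomial ℂ, (IsBFunction (powProd a (blkF (fun t => hankel N (p t)) β)) b ∨
        IsLocalBFunction (powProd a (blkF (fun t => hankel N (p t)) β)) b) →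
      ∀ (x : Fin ((N + 1) / 2) ⊕ B) (l : ℕ), l < mulHB N p β a x →
        b.eval (-((nuH N B x : ℂ) + l) / mulHB N p β a x) = 0 := by
  refine ⟨fun R _ u χ => dlZ_mem u _ _ χ, fun q hq => ?_, fun b hb =>
    hank_roots N p hp β a b (hank_data N p hp β a b hb)⟩
  have h2 := pairs_sign _ _ (nuH_pos N B) q hq
  exact ⟨h2.1, h2.2, fun b hb => pairs_roots _ _ (nuH_pos N B) b
    (hank_roots N p hp β a b (hank_data N p hp β a b hb)) q hq⟩

end Pool.Agent.Results.MP_432c1b_ag.HankelForms
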