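import Pool.Agent.T2H42.MM.Mix2

set_option autoImplicit false

/-! # The motivic monodromy conjecture for products of powers of forms over products of determinantal ideals

Let `x` be the generic matrix of one of the three spaces `S` of matrices: all `m × n` matrices, the
symmetric `n × n` matrices, the skew symmetric `n × n` matrices (`MSpace`). Let `p t`, `t < T`, be sizes
of minors (of Pfaffians of size `2 (p t)` in the skew symmetric case), `p t < min (m, n)`, `p t < n`, or
`2 (p t) + 1 < n` (`Small`), which are distributed over `B` blocks: `t` belongs to the block `β t`. For
`b < B` let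

  `F_b = ∑_J y_{b,J} ∏_{β t = b} M_{J t}(x)`,

where `J` runs over the choices of one minor (Pfaffian) `M_{J t}` of size `p t` for each `t` in the block
`b`, and the `y_{b,J}` are further variables. So `F_b` is the form over the product of the ideals of the
minors of the sizes `p t`, `β t = b`. Let `f = ∏ b, F_b ^ a b`, `a b ≥ 1` (`mixForm`, with integral
coefficients, so `f` is defined over every field `k ⊂ ℂ`). These polynomials are not reduced if some
`a b > 1`, and their singular loci have arbitrary dimension.

The motivic zeta function of the problem, `∑_{d ≥ 0} [X_{d,1}] 𝕃 ^ (-N d) T ^ d`, `N` the number of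
the variables `x` and `y` (`zetaM f Set.univ {1}`), is defined with the jets, in the Grothendieck ring
of varieties over the field `K` of characteristic zero, localised at `𝕃`. No resolution is used: the
jets are divided according to the orders of the ideals of the minors, for which there is a recursion
over the Schur complements; where `x(0) = 0` one divides by `t`, which gives the denominators
`1 - 𝕃 ^ (-ν_d) T ^ (N_d)`, `ν_d` the codimension of the locus of the matrices of rank `≤ d` (`≤ 2 d`),
`N_d = ∑ t, a (β t) max (p t - d, 0)`; the jets of `y` give the denominators
`1 - 𝕃 ^ (-1) T ^ (a b)` (`mixPairs`).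

The proof for the roots: a functional equation of `f` gives one of the product of the powers of the
ideals of the blocks with the same `b`, which is one of the product of powers of the ideals of the
minors, and the exceptional divisors `E_d` over the rank loci are Rees divisors of this product; the
roots `-1 / a b` come from the strict transforms. -/

namespace Pool.Agent.Results.MP_432c1b_ag.MixedDeterminantal

open Pool.Agent.H628R4.TP Pool.Agent.TH192.DT Pool.Agent.TH192.MT Pool.Agent.W428.MOT
  Pool.Agent.R852.MX Pool.Agent.T2H42.MM

/-- **The motivic monodromy conjecture for `f = ∏ b, F_b ^ a b`**, the `F_b` the forms over products of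
ideals of minors (Pfaffians) of a generic, symmetric or skew symmetric matrix. The finite set
`mixPairs S p β a` of the pairs `(-ν_d, N_d)` and `(-1, a b)` has the two properties of the problem: for
its elements `(c, e)`, `c / e` is a root of every `b` with `b(s) f ^ s = P(s) f ^ (s + 1)`, `P(s)` in the
Weyl algebra, in particular of the Bernstein-Sato polynomial of `f` (so `exp(2 π i c / e)` is a
monodromy eigenvalue of `f` at a point of `{f = 0}`, by the theorem of Malgrange and Kashiwara); and
for every field `K` of characteristic zero the motivic zeta function
`∑_{d ≥ 0} [X_{d,1}] 𝕃 ^ (-N d) T ^ d` of `f` over `K` lies in the ring generated by `T` and the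
`1 / (1 - 𝕃 ^ c T ^ e)`. The same is true if only the jets with origin in a constructible set `W`
are counted. -/
theorem result (S : MSpace) (T B : ℕ) (p : Fin T → ℕ) (β : Fin T → Fin B) (a : Fin B → ℕ)
    (hp : ∀ t, S.Small (p t)) (ha : ∀ b, 0 < a b) :
    (∀ q ∈ mixPairs S p β a, q.1 < 0 ∧ 0 < q.2 ∧
      ∀ b : Polynomial ℂ, IsBFunction (mixOver ℂ S p β a) b →
        b.eval ((q.1 : ℂ) / q.2) = 0) ∧
    ∀ (K : Type) [Field K] [CharZero K],
      zetaM (mixOver K S p β a) Set.univ {1} ∈ ratRing K (mixPairs S p β a) ∧
      ∀ W : Set (Pt K (MixVar S p β)), Constr W →
        zetaM (mixOver K S p β a) W {1} ∈ ratRing K (mixPairs S p β a) :=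
  ⟨fun q hq => over_roots S p β a hp ha q hq,
    fun _ _ _ => ⟨over_zeta S p β a hp ha Constr.univ, fun _ hW => over_zeta S p β a hp ha hW⟩⟩

end Pool.Agent.Results.MP_432c1b_ag.MixedDeterminantal
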