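import Pool.Agent.T2H42.TSM.Proof

set_option autoImplicit false

/-! # The motivic monodromy conjecture for the Thom-Sebastiani sums `∑ y_j f_j(x) + g(z)`

We consider the smallest classes of ideals and of polynomials (see `Cls` and the comments in
`Pool.Agent.T2H42.TSM.Defs`) such that

* all non-zero ideals of `ℂ[x₁, x₂]`, and all ideals generated by forms of the same degree in three
  variables, three of which are algebraically independent, are in the class of the ideals; sums and
  products of ideals of the class in disjoint sets of variables, and the principal ideals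
  generated by the polynomials of the class are in the class;
* all non-constant polynomials in one variable are in the class of the polynomials; if the ideal
  `(f_j)` and the polynomials `g`, `h` are in the classes, then the polynomials `∑ y_j f_j(x)`,
  `∑ y_j f_j(x) + g(z)` and `(∑ y_j f_j(x)) h(z)`, with new variables `y_j`, are in the class.

The proof. For an ideal `I` let `U_e = μ(ord I ≥ e)`, and for a polynomial `g` let
`W_e = μ(ord g ≥ e)` and `J_e = μ(g ≡ t^e mod t^(e + 1))`. For `F = ∑ y_j f_j(x) + g(z)` one finds
(`red_ts`, `jet_ts`)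

* `L W_(e + 1)(F) - W_e(F) = U_(e + 1) (L W_(e + 1)(g) - W_e(g))`,
* `J_e(F) - L⁻¹ W_e(F) = U_(e + 1) (J_e(g) - L⁻¹ W_e(g))`.

By `had_mem` the denominators of the coefficientwise products are the `1 - L⁻ⁿ Tᵃ` with
`n/a = n'/a' + n''/a''`, and by `fm_ts` (a theorem on the Bernstein-Sato polynomial `b_F`) the number
`α + β` is a root of `b_F / (s + 1)`, if `α` is a root of `b_I` and `β` is a root of `b_g / (s + 1)`.
The induction shows that the two reduced series `∑ (L W_(e + 1) - W_e) T^e` and
`∑ (J_e - L⁻¹ W_e) T^e` have only denominators which belong to the roots of `b / (s + 1)`. -/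

namespace Pool.Agent.Results.MP_432c1b_ag.ThomSebastianiForms

open MvPolynomial Pool.Agent.W574.MO Pool.Agent.W574.RO Pool.Agent.T2H42.TSM

/-- Let `F` be a polynomial of the class `Cls`, with the series `Z = ∑ μ(ord F = k) T^k` and
`J = ∑ μ(F ≡ t^d mod t^(d + 1)) T^d`, and let `b` be a polynomial such that
`b(s) F^s = P(s) F^(s + 1)` for some `P` in the Weyl algebra with the parameter `s` (in particular
the Bernstein-Sato polynomial of `F`). Then the motivic zeta function
`L^n J = ∑ [X_{d,1}] L^(-n d) T^d` of `F`, `n` the number of the variables, and the series `Z` lie in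
the ring `M[T][(1 - L^(-ν) T^N)⁻¹]`, where the pairs `N, ν ≥ 1` are such that `-ν/N` is a root of
`b`. -/
theorem result {M : Type} [CommRing M] (L : Mˣ) (σ : Type) (F : MvPolynomial σ ℂ)
    (Z J : PowerSeries M) (h : Cls L true ⟨σ, Fin 1, fun _ => F⟩ Z J) (b : Polynomial ℂ)
    (hb : Pool.Agent.H628R4.TP.IsBFunction F b) :
    PowerSeries.C ((L ^ Nat.card σ : Mˣ) : M) * J ∈ DenRing L (RootPair b) ∧
      Z ∈ DenRing L (RootPair b) := by
  obtain ⟨h1, h2⟩ := cls_main σ F Z J h b hb
  exact ⟨(DenRing L _).mul_mem (C_mem _) h2, h1⟩

end Pool.Agent.Results.MP_432c1b_ag.ThomSebastianiForms
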